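import Pool.Agent.H16.VA.Targets

/-!
# Module SF of `MP_1f8451_al`: strong finite generation
-/

set_option autoImplicit false

open Finset MvPolynomial

namespace Pool.Agent.H19.VA

open Pool.Agent.H16.VA

theorem Tj_zero {A : Type*} [CommRing A] [Algebra ℂ A] (D : DData A) (a : A) : D.Tj 0 a = a := by
  simp [DData.Tj]

theorem T_Tj {A : Type*} [CommRing A] [Algebra ℂ A] (D : DData A) (n : ℕ) (a : A) :
    D.T (D.Tj n a) = ((n + 1 : ℕ) : ℂ) • D.Tj (n + 1) a := by
  unfold DData.Tj
  rw [Derivation.map_smul, Function.iterate_succ_apply', smul_smul]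
  congr 1
  rw [Nat.factorial_succ]
  push_cast
  have : ((n : ℂ) + 1) ≠ 0 := by exact_mod_cast Nat.succ_ne_zero n
  field_simp

theorem sf : SFGStmt := by
  classical
  intro A _ _ D M F hF
  refine ⟨insert (X 0) (F.image (C : A → MvPolynomial ℕ A)), ?_⟩
  intro U hvac hU
  rw [M.vac] at hvac
  have hX : ∀ (n : ℕ) v, v ∈ U → X n * v ∈ U := by
    intro n v hv
    have := hU (X 0) (Finset.mem_insert_self _ _) n v hv
    rwa [M.b_neg] at this
  have hCf : ∀ f ∈ F, ∀ (n : ℕ) b, (C b : MvPolynomial ℕ A) ∈ U →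
      (C (D.Tj n f * b) : MvPolynomial ℕ A) ∈ U := by
    intro f hf n b hb
    have := hU (C f) (Finset.mem_insert_of_mem (Finset.mem_image_of_mem _ hf)) n (C b) hb
    rwa [M.a_neg] at this
  have hB : Algebra.adjoin ℂ {a : A | ∃ f ∈ F, ∃ n, a = D.Tj n f} = ⊤ := by
    apply hF
    · intro a ha
      exact Algebra.subset_adjoin ⟨a, ha, 0, (Tj_zero D a).symm⟩
    · intro a ha
      induction ha using Algebra.adjoin_induction with
      | mem x hx =>
        obtain ⟨f, hf, n, rfl⟩ := hx
        rw [T_Tj]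
        have : D.Tj (n + 1) f ∈ {a : A | ∃ f ∈ F, ∃ n, a = D.Tj n f} := ⟨f, hf, n + 1, rfl⟩
        exact Subalgebra.smul_mem _ (Algebra.subset_adjoin this) _
      | algebraMap r => rw [Derivation.map_algebraMap]; exact Subalgebra.zero_mem _
      | add x y _ _ hx hy => rw [map_add]; exact Subalgebra.add_mem _ hx hy
      | mul x y hx' hy' hx hy =>
        rw [Derivation.leibniz, smul_eq_mul, smul_eq_mul]
        exact Subalgebra.add_mem _ (Subalgebra.mul_mem _ hx' hy) (Subalgebra.mul_mem _ hy' hx)
  have hmul : ∀ a : A, ∀ b, (C b : MvPolynomial ℕ A) ∈ U → (C (a * b) : MvPolynomial ℕ A) ∈ U := by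
    intro a
    have ha : a ∈ Algebra.adjoin ℂ {a : A | ∃ f ∈ F, ∃ n, a = D.Tj n f} := by rw [hB]; trivial
    induction ha using Algebra.adjoin_induction with
    | mem x hx =>
      obtain ⟨f, hf, n, rfl⟩ := hx
      exact hCf f hf n
    | algebraMap r =>
      intro b hb
      have : (C (algebraMap ℂ A r * b) : MvPolynomial ℕ A) = r • C b := by
        rw [← Algebra.smul_def]
        exact (MvPolynomial.smul_monomial r).symm
      rw [this]
      exact U.smul_mem _ hb
    | add x y _ _ hx hy =>
      intro b hb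
      rw [add_mul, map_add]
      exact U.add_mem (hx b hb) (hy b hb)
    | mul x y _ _ hx hy =>
      intro b hb
      rw [mul_assoc]
      exact hx _ (hy b hb)
  rw [eq_top_iff]
  intro p _
  induction p using MvPolynomial.induction_on with
  | C a =>
    have := hmul a 1 (by rw [map_one]; exact hvac)
    rwa [mul_one] at this
  | add p q hp hq => exact U.add_mem (hp trivial) (hq trivial)
  | mul_X p n hp =>
    rw [mul_comm]
    exact hX n p (hp trivial)

end Pool.Agent.H19.VA
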